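import Mathlib
import Pool.Agent.D0H60.RMG.Laws
import Pool.Agent.D0H60.RMG.Det2

set_option autoImplicit false

/-!
# The exact range of Cramér's law for the largest gaps in random models of the primes with a sieve

The question is whether the upper limit `L` of the gaps after the primes `p`, divided by `(log p) ^ 2`, is
`2 e^(-γ) > 1`.  Cramér's law, `L = 1`, is expected to fail for the primes because of their irregularities
modulo small primes.  We decide which sieve is responsible, in the following class of random models, in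
terms of the largest gap `G(x)` after an element not exceeding `x`: the integers are
decided one after the other; no `n` with a prime factor at most `z(n)` is chosen; and the conditional
probability, given the past, that a number `n + 1` without prime factors at most `z(n + 1)` is chosen is
asymptotic to `∏_{q ≤ z(n + 1)} (1 - 1/q)⁻¹ / log n`.  No independence and no rate is assumed; `z` is
monotone and at most `n ^ o(1)`.

* Always `G(x) ≥ (1 - o(1)) (log x) ^ 2` almost surely.
* `G(x) ~ (log x) ^ 2` almost surely if and only if `z(n) ≤ (log n) ^ o(1)`.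
* For every `c > 0`, however small, there is `δ(c) > 0` such that `z(n) ≥ (log n) ^ c` implies
  `G(x) ≥ (1 + δ(c)) (log x) ^ 2` for all large `x`, almost surely.  (Granville's argument gives this for
  `c = 1`, where the intervals in question are much longer than the modulus.)

Proof.  Upper bound: the fundamental lemma bounds the sums of the densities over all windows of length
`(1 + κ) (log x) ^ 2` from below.  Lower bounds: one of many disjoint windows with small sums is empty;
the windows start at multiples of the product of the primes in `((log x) ^ (e E), (log x) ^ e]`,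
`e = 2 / k` with a large odd `k`, `E < 1` close to `1`, so that (Maier's matrix, and the inequalities of
Bonferroni for the products of `k + 1` of these primes) they contain fewer sieved numbers than the average
window.
-/

open MeasureTheory Filter
open scoped Topology

namespace Pool.Agent.Results.MP_2033ac_nt.CramerLawThreshold

/-- `∏_{q ≤ x} (1 - 1/q)⁻¹`, `q` prime -/
noncomputable def W (x : ℕ) : ℝ := ∏ q ∈ (Finset.Icc 1 x).filter Nat.Prime, (1 - (q : ℝ)⁻¹)⁻¹

/-- Sequential random models with a sieve: the events `S n` (that `n` is chosen) are adapted to the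
filtration `ℱ`; no `n` with a prime factor at most `z n` is chosen; and almost surely the conditional
probability of `S (n + 1)` given `ℱ n`, times `log n / ∏_{q ≤ z(n + 1)} (1 - 1/q)⁻¹`, tends to `1` along
the `n` for which `n + 1` has no prime factor at most `z (n + 1)` -/
structure Model {Ω : Type} [mΩ : MeasurableSpace Ω] (μ : Measure Ω) (ℱ : Filtration ℕ mΩ)
    (S : ℕ → Set Ω) (z : ℕ → ℕ) : Prop where
  adapted : ∀ n, MeasurableSet[ℱ n] (S n)
  sieved : ∀ n, (∃ q, q.Prime ∧ q ≤ z n ∧ q ∣ n) → S n = ∅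
  density : ∀ᵐ ω ∂μ, Tendsto (fun n : ℕ =>
    (μ[(S (n + 1)).indicator (fun _ => (1 : ℝ)) | ℱ n]) ω * Real.log n / W (z (n + 1)))
    (atTop ⊓ 𝓟 {n : ℕ | ∀ q, q.Prime → q ≤ z (n + 1) → ¬ q ∣ n + 1}) (𝓝 1)

/-- `g` is the gap of `T` after the element `s`: `s + g` is the next element -/
def IsGap (T : Set ℕ) (s g : ℕ) : Prop := s ∈ T ∧ 0 < g ∧ s + g ∈ T ∧ ∀ j, 0 < j → j < g → s + j ∉ T

/-- the largest gap of `T` after an element not exceeding `x` -/
noncomputable def G (T : Set ℕ) (x : ℝ) : ℕ := sSup {g | ∃ s : ℕ, (s : ℝ) ≤ x ∧ IsGap T s g}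

/-- `z(n) ≤ n ^ o(1)` -/
def SubPower (z : ℕ → ℕ) : Prop := ∀ ε : ℝ, 0 < ε → ∀ᶠ n : ℕ in atTop, (z n : ℝ) ≤ (n : ℝ) ^ ε

/-- `z(n) ≤ (log n) ^ o(1)` -/
def SubLogPower (z : ℕ → ℕ) : Prop := ∀ ε : ℝ, 0 < ε → ∀ᶠ n : ℕ in atTop, (z n : ℝ) ≤ Real.log n ^ ε

lemma subPower_ratio {z : ℕ → ℕ} (h : SubPower z) :
    Tendsto (fun n : ℕ => Real.log (z n) / Real.log n) atTop (𝓝 0) := by
  rw [Metric.tendsto_nhds]
  intro ε hε
  filter_upwards [h (ε / 2) (by positivity), eventually_gt_atTop 1] with n h1 h2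
  have hn : (1 : ℝ) < n := by exact_mod_cast h2
  have hl : 0 < Real.log (n : ℝ) := Real.log_pos hn
  have h3 : 0 ≤ Real.log (z n : ℝ) := Real.log_natCast_nonneg _
  rw [Real.dist_eq, sub_zero, abs_of_nonneg (div_nonneg h3 hl.le), div_lt_iff₀ hl]
  rcases Nat.eq_zero_or_pos (z n) with h4 | h4
  · rw [h4, Nat.cast_zero, Real.log_zero]
    positivity
  · have h5 : (0 : ℝ) < z n := by exact_mod_cast h4
    have h6 := Real.log_le_log h5 h1
    rw [Real.log_rpow (by linarith)] at h6
    have : 0 < ε * Real.log n := by positivity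
    linarith

section

variable {Ω : Type} [mΩ : MeasurableSpace Ω] {μ : Measure Ω} [IsProbabilityMeasure μ]
    {ℱ : Filtration ℕ mΩ} {S : ℕ → Set Ω} {z : ℕ → ℕ}

lemma prof (h : Model μ ℱ S z) : ∀ᵐ ω ∂μ, ∀ ε : ℝ, 0 < ε → ∀ᶠ n : ℕ in atTop,
    |Pool.Agent.R528.RM.dens μ ℱ S n ω - Pool.Agent.D0H60.RMG.dn z (n + 1)| ≤
      ε * Pool.Agent.D0H60.RMG.dn z (n + 1) := by
  refine Pool.Agent.D0H60.RMG.profile (μ := μ) (ℱ := ℱ) (A := S) z ?_ h.density
  intro n hn
  unfold Pool.Agent.D0H60.RMG.Rough at hn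
  push Not at hn
  exact h.sieved n hn

lemma infin (h : Model μ ℱ S z) (hz : SubPower z) : ∀ᵐ ω ∂μ, {n | ω ∈ S n}.Infinite := by
  have h1 := Pool.Agent.D0H60.RMG.law_pow (μ := μ) (ℱ := ℱ) (A := S) h.adapted z 0 le_rfl (by norm_num)
    (fun ε hε => by simpa using hz ε hε) (prof h)
  filter_upwards [h1] with ω hω
  exact Pool.Agent.D0H60.RMG.inf_of_win _ (hω 1 one_pos)

end

/-- **The exact range of Cramér's law in sequential random models of the primes with a sieve.**  Let
`G(x)` be the largest gap of the random set `T = {n | S n occurs}` after an element not exceeding `x`, in a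
model with monotone `z(n) ≤ n ^ o(1)`.

(1) If `z(n) ≤ (log n) ^ o(1)`, then `G(x) / (log x) ^ 2` tends to `1` almost surely; if not, there is
`δ > 0` such that almost surely `G(x) ≥ (1 + δ) (log x) ^ 2` for arbitrarily large `x`.

(2) In every case almost surely `G(x) ≥ (1 - ε) (log x) ^ 2` for every `ε > 0` and all large `x`; and for
every `c > 0` there is `δ > 0`, depending on `c` only, such that if `z(n) ≥ (log n) ^ c` for all large `n`
then almost surely `G(x) ≥ (1 + δ) (log x) ^ 2` for all large `x`. -/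
theorem result :
    (∀ {Ω : Type} [mΩ : MeasurableSpace Ω] (μ : Measure Ω) [IsProbabilityMeasure μ]
      (ℱ : Filtration ℕ mΩ) (S : ℕ → Set Ω) (z : ℕ → ℕ), Model μ ℱ S z → Monotone z → SubPower z →
      (SubLogPower z → ∀ᵐ ω ∂μ,
        Tendsto (fun x : ℝ => (G {n | ω ∈ S n} x : ℝ) / Real.log x ^ 2) atTop (𝓝 1)) ∧
      (¬ SubLogPower z → ∃ δ : ℝ, 0 < δ ∧ ∀ᵐ ω ∂μ,
        ∃ᶠ x : ℝ in atTop, (1 + δ) * Real.log x ^ 2 ≤ G {n | ω ∈ S n} x) ∧
      (∀ᵐ ω ∂μ, ∀ ε : ℝ, 0 < ε → ∀ᶠ x : ℝ in atTop, (1 - ε) * Real.log x ^ 2 ≤ G {n | ω ∈ S n} x)) ∧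
    (∀ c : ℝ, 0 < c → ∃ δ : ℝ, 0 < δ ∧
      ∀ {Ω : Type} [mΩ : MeasurableSpace Ω] (μ : Measure Ω) [IsProbabilityMeasure μ]
      (ℱ : Filtration ℕ mΩ) (S : ℕ → Set Ω) (z : ℕ → ℕ), Model μ ℱ S z → Monotone z → SubPower z →
      (∀ᶠ n : ℕ in atTop, Real.log n ^ c ≤ z n) →
      ∀ᵐ ω ∂μ, ∀ᶠ x : ℝ in atTop, (1 + δ) * Real.log x ^ 2 ≤ G {n | ω ∈ S n} x) := by
  constructor
  · intro Ω mΩ μ hμ ℱ S z hM hmono hz
    have hprof := prof hM
    have hinf := infin hM hz
    have hρ0 := Pool.Agent.D0H60.RMG.dn_tendsto z (subPower_ratio hz)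
    have hone := Pool.Agent.D0H60.RMG.law_one (μ := μ) (ℱ := ℱ) (A := S) hM.adapted z hmono hz hρ0
      hprof hinf
    refine ⟨fun hs => ?_, fun hs => ?_, hone⟩
    · have hup := Pool.Agent.D0H60.RMG.law_small (μ := μ) (ℱ := ℱ) (A := S) hM.adapted z hmono hs hprof
      filter_upwards [hone, hup] with ω h1 h2
      rw [Metric.tendsto_nhds]
      intro ε hε
      filter_upwards [h1 (ε / 2) (by positivity), h2 (ε / 2) (by positivity),
        Real.tendsto_log_atTop.eventually_gt_atTop 0] with x g1 g2 g3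
      have h4 : 0 < Real.log x ^ 2 := by positivity
      rw [Real.dist_eq, abs_lt]
      constructor
      · rw [lt_sub_iff_add_lt, lt_div_iff₀ h4]
        have : 0 < ε / 2 * Real.log x ^ 2 := by positivity
        have g1' : (1 - ε / 2) * Real.log x ^ 2 ≤ (G {n | ω ∈ S n} x : ℝ) := g1
        have e : (-ε + 1) * Real.log x ^ 2 = (1 - ε / 2) * Real.log x ^ 2 - ε / 2 * Real.log x ^ 2 := by
          ring
        rw [e]
        linarith
      · rw [sub_lt_iff_lt_add, div_lt_iff₀ h4]
        have : 0 < ε / 2 * Real.log x ^ 2 := by positivity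
        have g2' : (G {n | ω ∈ S n} x : ℝ) ≤ (1 + ε / 2) * Real.log x ^ 2 := g2
        have e : (ε + 1) * Real.log x ^ 2 = (1 + ε / 2) * Real.log x ^ 2 + ε / 2 * Real.log x ^ 2 := by
          ring
        rw [e]
        linarith
    · -- the sieve is large infinitely often
      unfold SubLogPower at hs
      push Not at hs
      obtain ⟨c, hc, hfreq⟩ := hs
      obtain ⟨δ, hδ, H⟩ := Pool.Agent.D0H60.RMG.law_large (c / 2) (by positivity)
      refine ⟨δ, hδ, ?_⟩
      have h1 := H (μ := μ) (ℱ := ℱ) (A := S) hM.adapted z hmono hz hρ0 hprof hinf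
      have h2 : ∃ᶠ i : ℕ in atTop, i ∈ {i : ℕ | (i * Real.log 2) ^ (c / 2) ≤ z (2 ^ i)} := by
        rw [frequently_atTop]
        intro i₀
        have hlarge : ∀ᶠ i : ℕ in atTop, ((i + 1 : ℕ) * Real.log 2 : ℝ) ^ (c / 2) ≤ (i * Real.log 2) ^ c := by
          filter_upwards [eventually_ge_atTop 3] with i hi
          have hl := Real.log_two_gt_d9
          have hi' : (3 : ℝ) ≤ i := by exact_mod_cast hi
          have e : ((i : ℝ) * Real.log 2) ^ c = (((i : ℝ) * Real.log 2) ^ (2 : ℝ)) ^ (c / 2) := by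
            rw [← Real.rpow_mul (by positivity)]
            congr 1
            ring
          rw [e]
          apply Real.rpow_le_rpow (by positivity) _ (by positivity)
          rw [Real.rpow_two]
          push_cast
          have g1 : (2 : ℝ) ≤ i * Real.log 2 := by nlinarith
          nlinarith
        obtain ⟨i₁, hi₁⟩ := eventually_atTop.1 hlarge
        rw [frequently_atTop] at hfreq
        obtain ⟨n, hn, hnz⟩ := hfreq (2 ^ (max i₀ i₁))
        have hn0 : n ≠ 0 := by
          have : 0 < 2 ^ (max i₀ i₁) := by positivity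
          omega
        have g1 : max i₀ i₁ ≤ Nat.log 2 n := Nat.le_log_of_pow_le (by norm_num) hn
        have g2 : 2 ^ (Nat.log 2 n) ≤ n := Nat.pow_log_le_self 2 hn0
        have g3 : n < 2 ^ (Nat.log 2 n + 1) := Nat.lt_pow_succ_log_self (by norm_num) n
        refine ⟨Nat.log 2 n + 1, by omega, ?_⟩
        have g4 := hi₁ (Nat.log 2 n) (by omega)
        have g5 : (z n : ℝ) ≤ z (2 ^ (Nat.log 2 n + 1)) := by exact_mod_cast hmono g3.le
        have g6 : ((Nat.log 2 n : ℕ) * Real.log 2 : ℝ) ^ c ≤ Real.log n ^ c := by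
          apply Real.rpow_le_rpow (by positivity) _ hc.le
          rw [← Real.log_pow]
          apply Real.log_le_log (by positivity)
          exact_mod_cast g2
        exact (g4.trans g6).trans (hnz.le.trans g5)
      filter_upwards [h1] with ω hω
      rw [frequently_atTop]
      intro x₀
      obtain ⟨N, hN⟩ := exists_nat_gt x₀
      obtain ⟨i, hi1, hi2, hi3⟩ := (h2.and_eventually (hω.and (eventually_ge_atTop N))).exists
      refine ⟨2 ^ (i + 1), ?_, hi2 hi1 _ le_rfl ?_⟩
      · have g1 : i < 2 ^ (i + 1) := by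
          have : i + 1 < 2 ^ (i + 1) := Nat.lt_two_pow_self
          omega
        have g2 : (N : ℝ) ≤ 2 ^ (i + 1) := by exact_mod_cast (by omega : N ≤ 2 ^ (i + 1))
        exact hN.le.trans g2
      · rw [pow_succ (2 : ℝ) (i + 1)]
        have : (0 : ℝ) < 2 ^ (i + 1) := by positivity
        linarith
  · intro c hc
    obtain ⟨δ, hδ, H⟩ := Pool.Agent.D0H60.RMG.law_large c hc
    refine ⟨δ, hδ, ?_⟩
    intro Ω mΩ μ hμ ℱ S z hM hmono hz hzc
    have hρ0 := Pool.Agent.D0H60.RMG.dn_tendsto z (subPower_ratio hz)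
    have h1 := H (μ := μ) (ℱ := ℱ) (A := S) hM.adapted z hmono hz hρ0 (prof hM) (infin hM hz)
    filter_upwards [h1] with ω hω
    have h2 := Pool.Agent.D0H60.RMG.dyadic
      (fun _ x => (1 + δ) * Real.log x ^ 2 ≤ Pool.Agent.D0H60.RMG.G {n | ω ∈ S n} x) (by
      have h3 : Tendsto (fun i : ℕ => 2 ^ i) atTop atTop := tendsto_pow_atTop_atTop_of_one_lt (by norm_num)
      filter_upwards [hω, h3.eventually hzc] with i g1 g2 x hx1 hx2
      refine g1 ?_ x hx1 hx2
      show ((i : ℝ) * Real.log 2) ^ c ≤ z (2 ^ i)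
      have e : Real.log ((2 ^ i : ℕ) : ℝ) = i * Real.log 2 := by
        push_cast
        rw [Real.log_pow]
      rwa [e] at g2)
    filter_upwards [h2] with x h4
    obtain ⟨_, h5⟩ := h4
    exact h5

end Pool.Agent.Results.MP_2033ac_nt.CramerLawThreshold
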